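import Pool.Agent.Helper95.ParityMain
import Pool.Agent.Helper5.GC5

/-!
# Parity of the two-number and the Euler characteristic

For every compact connected Riemannian symmetric space `M`, the Chen–Nagano two-number
`#₂ M` (the supremum of the cardinalities of the antipodal sets) is finite, the rational
singular homology of `M` is finite, and `χ(M) ≡ #₂ M mod 2`.

Proof: for a maximal antipodal set `S`, the symmetries `s_p`, `p ∈ S`, commute, and their common
fixed points are exactly the points of `S`; and the Euler characteristic of a compact Riemannian
manifold with an isometric action of a finite elementary abelian 2-group is congruent mod 2 to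
the Euler characteristic of the fixed point set (shown here with nerves of good covers that are
invariant under the group).
-/

set_option autoImplicit false

open Bundle Manifold
open scoped ContDiff Topology

namespace Pool.Agent.Results.MP_cec940_gt.Parity

open Pool.Agent.Helper95

/-- For a compact connected Riemannian symmetric space `M`, the Euler characteristic of `M`
(well defined: the homology of `M` is finite) and the two-number of `M` (finite) have the same
parity. -/
theorem result {n : ℕ} {M : Type} [MetricSpace M]
    [ChartedSpace (EuclideanSpace ℝ (Fin n)) M] [IsManifold (𝓡 n) ∞ M]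
    [RiemannianBundle (fun x : M ↦ TangentSpace (𝓡 n) x)]
    [IsContMDiffRiemannianBundle (𝓡 n) ∞ (EuclideanSpace ℝ (Fin n))
      (fun x : M ↦ TangentSpace (𝓡 n) x)]
    [IsRiemannianManifold (𝓡 n) M] [CompactSpace M] [ConnectedSpace M]
    (hM : IsSymmetricSpace M) :
    FiniteHomology M ∧ ∃ k : ℕ, twoNumber M = k ∧ eulerChar M ≡ (k : ℤ) [ZMOD 2] := by
  obtain ⟨h1, k, hk, hev⟩ :=
    parity_of_goodCover (n := n) (goodCover_of_MV Pool.Agent.Helper5.GC.mvStatement) hM
  refine ⟨h1, k, hk, ?_⟩
  obtain ⟨r, hr⟩ := hev
  exact (Int.modEq_iff_dvd.2 ⟨r, by rw [hr]; ring⟩).symm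

end Pool.Agent.Results.MP_cec940_gt.Parity
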